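import Mathlib

/-!
The approximate spectral condition `C(a, lambda, E)` depends on the approximate identity `E`:
a counterexample in the non-unital commutative C*-algebra `c_0 = C₀(ℕ, ℂ)`, with two contractive
sequential approximate identities.
-/

open Filter Topology ZeroAtInfty

namespace Pool.Agent.Results.MP_739307_an.DependsOnIdentity

/-- A net `e : J → A` (with `J` a nonempty directed set) is an approximate identity of the
normed algebra `A` if `‖e j * x - x‖ → 0` and `‖x * e j - x‖ → 0` for every `x : A`. -/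
def IsApproxIdentity {A : Type*} [NonUnitalNormedRing A] {J : Type*} [Preorder J]
    (e : J → A) : Prop :=
  ∀ x : A, Tendsto (fun j => ‖e j * x - x‖) atTop (𝓝 0) ∧
    Tendsto (fun j => ‖x * e j - x‖) atTop (𝓝 0)

/-- The condition `C(a, lambda, E)`: there is a net `r`, indexed by the same directed set as
`E = (e j)`, such that `((lambda e j - a) r j)` is an approximate identity. -/
def ConditionC {A : Type*} [NonUnitalNormedRing A] [NormedSpace ℂ A] {J : Type*} [Preorder J]
    (a : A) (lam : ℂ) (e : J → A) : Prop :=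
  ∃ r : J → A, IsApproxIdentity (fun j => (lam • e j - a) * r j)

lemma cocompact_nat : cocompact ℕ = atTop := by
  rw [Filter.cocompact_eq_cofinite, Nat.cofinite_eq_atTop]

/-- The element of `c_0` given by a finitely supported sequence. -/
noncomputable def mk0 (g : ℕ → ℂ) (N : ℕ) (hg : ∀ n, N ≤ n → g n = 0) : C₀(ℕ, ℂ) where
  toFun := g
  continuous_toFun := continuous_of_discreteTopology
  zero_at_infty' := by
    rw [cocompact_nat]
    refine tendsto_const_nhds.congr' ?_
    filter_upwards [eventually_ge_atTop N] with n hn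
    exact (hg n hn).symm

@[simp] lemma mk0_apply (g : ℕ → ℂ) (N : ℕ) (hg : ∀ n, N ≤ n → g n = 0) (n : ℕ) :
    mk0 g N hg n = g n := rfl

/-- The indicator of `{0, …, j}`. -/
noncomputable def e (j : ℕ) : C₀(ℕ, ℂ) :=
  mk0 (fun n => if n ≤ j then 1 else 0) (j + 1) (fun n hn => by
    have : ¬ n ≤ j := by omega
    simp [this])

/-- The indicator of `{0}`. -/
noncomputable def a : C₀(ℕ, ℂ) :=
  mk0 (fun n => if n = 0 then 1 else 0) 1 (fun n hn => by
    have : ¬ n = 0 := by omega
    simp [this])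

/-- The second approximate identity `f j = e j - (j + 2)⁻¹ a`. -/
noncomputable def f (j : ℕ) : C₀(ℕ, ℂ) := e j - ((j : ℂ) + 2)⁻¹ • a

/-- The elements `r j`. -/
noncomputable def r (j : ℕ) : C₀(ℕ, ℂ) := e j - ((j : ℂ) + 3) • a

@[simp] lemma e_apply (j n : ℕ) : e j n = if n ≤ j then 1 else 0 := rfl
@[simp] lemma a_apply (n : ℕ) : a n = if n = 0 then 1 else 0 := rfl

lemma norm_le_of {x : C₀(ℕ, ℂ)} {c : ℝ} (hc : 0 ≤ c) (h : ∀ n, ‖x n‖ ≤ c) : ‖x‖ ≤ c := by
  rw [← ZeroAtInftyContinuousMap.norm_toBCF_eq_norm]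
  exact (BoundedContinuousFunction.norm_le hc).2 h

lemma norm_coe_le (x : C₀(ℕ, ℂ)) (n : ℕ) : ‖x n‖ ≤ ‖x‖ := by
  rw [← ZeroAtInftyContinuousMap.norm_toBCF_eq_norm]
  exact x.toBCF.norm_coe_le_norm n

lemma tendsto_e (x : C₀(ℕ, ℂ)) : Tendsto (fun j => ‖e j * x - x‖) atTop (𝓝 0) := by
  have hx : Tendsto (fun n => x n) atTop (𝓝 0) := by
    have := x.zero_at_infty'
    rw [cocompact_nat] at this
    exact this
  rw [Metric.tendsto_atTop] at hx ⊢
  intro ε hε
  obtain ⟨N, hN⟩ := hx (ε / 2) (by positivity)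
  refine ⟨N, fun j hj => ?_⟩
  rw [dist_zero_right, norm_norm]
  refine lt_of_le_of_lt (norm_le_of (c := ε / 2) (by positivity) fun n => ?_) (by linarith)
  by_cases hn : n ≤ j
  · simp [hn]; positivity
  · have h1 := hN n (by omega)
    rw [dist_zero_right] at h1
    simp [hn]
    exact h1.le

lemma isApproxIdentity_of_tendsto (g : ℕ → C₀(ℕ, ℂ))
    (h : ∀ x, Tendsto (fun j => ‖g j * x - x‖) atTop (𝓝 0)) : IsApproxIdentity g := by
  intro x
  refine ⟨h x, ?_⟩
  have : (fun j => ‖x * g j - x‖) = fun j => ‖g j * x - x‖ := by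
    funext j
    rw [mul_comm]
  rw [this]
  exact h x

lemma isApproxIdentity_e : IsApproxIdentity e := isApproxIdentity_of_tendsto e tendsto_e

lemma isApproxIdentity_f : IsApproxIdentity f := by
  refine isApproxIdentity_of_tendsto f fun x => ?_
  have h1 : Tendsto (fun j : ℕ => ‖e j * x - x‖ + ‖(((j : ℂ) + 2)⁻¹ • a) * x‖) atTop (𝓝 0) := by
    have h2 : Tendsto (fun j : ℕ => ‖(((j : ℂ) + 2)⁻¹ • a) * x‖) atTop (𝓝 0) := by
      have h3 : Tendsto (fun j : ℕ => ((j : ℝ) + 2)⁻¹ * ‖a * x‖) atTop (𝓝 (0 * ‖a * x‖)) := by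
        refine Tendsto.mul_const _ ?_
        refine tendsto_inv_atTop_zero.comp ?_
        exact tendsto_atTop_add_const_right _ _ tendsto_natCast_atTop_atTop
      rw [zero_mul] at h3
      refine h3.congr fun j => ?_
      rw [smul_mul_assoc, norm_smul, norm_inv]
      have : ‖(j : ℂ) + 2‖ = (j : ℝ) + 2 := by
        have : ((j : ℂ) + 2) = ((j + 2 : ℕ) : ℂ) := by push_cast; ring
        rw [this, Complex.norm_natCast]
        push_cast
        ring
      rw [this]
    simpa using (tendsto_e x).add h2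
  refine squeeze_zero (fun _ => norm_nonneg _) (fun j => ?_) h1
  have : f j * x - x = (e j * x - x) - (((j : ℂ) + 2)⁻¹ • a) * x := by
    simp only [f, sub_mul]
    abel
  rw [this]
  exact norm_sub_le _ _

lemma norm_e_le (j : ℕ) : ‖e j‖ ≤ 1 := by
  refine norm_le_of zero_le_one fun n => ?_
  by_cases hn : n ≤ j <;> simp [hn]

lemma norm_f_le (j : ℕ) : ‖f j‖ ≤ 1 := by
  refine norm_le_of zero_le_one fun n => ?_
  by_cases h0 : n = 0
  · subst h0
    have h2 : (f j) 0 = (((j : ℝ) + 1) / ((j : ℝ) + 2) : ℝ) := by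
      have h3 : ((j : ℂ) + 2) ≠ 0 := by
        have : ((j : ℂ) + 2) = ((j + 2 : ℕ) : ℂ) := by push_cast; ring
        rw [this]
        exact_mod_cast (by omega : j + 2 ≠ 0)
      simp only [f, ZeroAtInftyContinuousMap.coe_sub, Pi.sub_apply, e_apply, Nat.zero_le, if_true,
        ZeroAtInftyContinuousMap.coe_smul, Pi.smul_apply, a_apply, smul_eq_mul, mul_one]
      push_cast
      field_simp
      ring
    rw [h2, Complex.norm_real, Real.norm_eq_abs, abs_of_nonneg (by positivity)]
    rw [div_le_one (by positivity)]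
    linarith
  · by_cases hn : n ≤ j <;> simp [f, hn, h0]

lemma prod_eq (j : ℕ) : ((1 : ℂ) • f j - a) * r j = e j := by
  have h3 : ((j : ℂ) + 2) ≠ 0 := by
    have : ((j : ℂ) + 2) = ((j + 2 : ℕ) : ℂ) := by push_cast; ring
    rw [this]
    exact_mod_cast (by omega : j + 2 ≠ 0)
  ext n
  by_cases h0 : n = 0
  · subst h0
    simp [f, r]
    field_simp
    ring
  · by_cases hn : n ≤ j <;> simp [f, r, hn, h0]

/-- **The condition depends on the approximate identity.**  In the non-unital commutative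
C*-algebra `A = c_0` there are an element `a` and two approximate identities `e`, `f`, both
sequences in the closed unit ball, such that `C(a, 1, f)` holds and `C(a, 1, e)` fails. -/
theorem result :
    (¬ ∃ u : C₀(ℕ, ℂ), ∀ x : C₀(ℕ, ℂ), u * x = x) ∧
    ∃ (a : C₀(ℕ, ℂ)) (lam : ℂ) (e f : ℕ → C₀(ℕ, ℂ)),
      lam ≠ 0 ∧ IsApproxIdentity e ∧ IsApproxIdentity f ∧
      (∀ j, ‖e j‖ ≤ 1) ∧ (∀ j, ‖f j‖ ≤ 1) ∧
      ConditionC a lam f ∧ ¬ ConditionC a lam e := by
  constructor
  · rintro ⟨u, hu⟩
    have h1 : ∀ n, u n = 1 := by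
      intro n
      have h2 := congrArg (fun x : C₀(ℕ, ℂ) => x n) (hu (e n))
      simpa using h2
    have h3 : Tendsto (fun n => u n) atTop (𝓝 0) := by
      have := u.zero_at_infty'
      rw [cocompact_nat] at this
      exact this
    have h4 : Tendsto (fun n => u n) atTop (𝓝 1) := by
      simp only [h1]
      exact tendsto_const_nhds
    exact zero_ne_one (tendsto_nhds_unique h3 h4)
  · refine ⟨a, 1, e, f, one_ne_zero, isApproxIdentity_e, isApproxIdentity_f, norm_e_le,
      norm_f_le, ⟨r, ?_⟩, ?_⟩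
    · simp only [prod_eq]
      exact isApproxIdentity_e
    · rintro ⟨s, hs⟩
      have h1 := (hs a).1
      have h2 : ∀ j : ℕ, 1 ≤ ‖((1 : ℂ) • e j - a) * s j * a - a‖ := by
        intro j
        refine le_trans ?_ (norm_coe_le _ 0)
        simp
      have h3 := ge_of_tendsto' h1 h2
      linarith

end Pool.Agent.Results.MP_739307_an.DependsOnIdentity
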